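import Mathlib
import Pool.Agent.H979R3.Brachy

set_option autoImplicit false

namespace Pool.Agent.Results.MP_77a645_al.NonAdditive

/-- There is a map `f` from the free ring on two generators `x, y` to the (commutative) ring of
dual numbers over the rationals with `f (1 + a) = 1 + f a` and `f (a * b) = f a * f b` for all
`a, b` which is not additive: `f x = f y = 0` but `f (x + y) = -ε`. -/
theorem result : ∃ f : FreeAlgebra ℤ (Fin 2) → DualNumber ℚ,
    (∀ a, f (1 + a) = 1 + f a) ∧ (∀ a b, f (a * b) = f a * f b) ∧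
    f (FreeAlgebra.ι ℤ 0) = 0 ∧ f (FreeAlgebra.ι ℤ 1) = 0 ∧
    f (FreeAlgebra.ι ℤ 0 + FreeAlgebra.ι ℤ 1) = -DualNumber.eps ∧
    f (FreeAlgebra.ι ℤ 0 + FreeAlgebra.ι ℤ 1) ≠
      f (FreeAlgebra.ι ℤ 0) + f (FreeAlgebra.ι ℤ 1) := by
  obtain ⟨f, h1, h2, h3, h4, h5⟩ := Pool.Agent.H979R3.Brachy.main
  refine ⟨f, h1, h2, h3, h4, h5, ?_⟩
  rw [h3, h4, h5, add_zero]
  intro h
  have h6 := congrArg TrivSqZeroExt.snd h
  simp at h6

end Pool.Agent.Results.MP_77a645_al.NonAdditive
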